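import Pool.Agent.W601.RP.Stm

set_option autoImplicit false
open scoped Classical
open Filter Topology

namespace Pool.Agent.W601.RP

noncomputable section

/-- Elementary facts on the circle `ℝ/ℤ`. -/
def S_CIR : Prop :=
  (∀ y : TT, (∀ m : ℕ, ‖m • y‖ < 1 / 4) → y = 0) ∧
  (∀ (y : TT) (m0 : ℕ), 1 ≤ m0 → (∀ m : ℕ, 1 ≤ m → m ≤ m0 → ‖m • y‖ < 1 / 4) →
    ‖y‖ ≤ 1 / (4 * (m0 : ℝ))) ∧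
  (∀ (n : ℕ) (κ : ℤ) (δ : ℝ), 0 < δ → δ ≤ 1 / 2 → 8 ≤ δ * n → κ ≠ 0 → -(n : ℤ) < 2 * κ →
    2 * κ ≤ n → ∃ a : ℕ, a < n ∧ ‖((((a : ℝ) / (n : ℝ)) : ℝ) : TT)‖ ≤ δ ∧
      δ / 2 ≤ ‖κ • ((((a : ℝ) / (n : ℝ)) : ℝ) : TT)‖) ∧
  (∀ (n : ℕ) (κ : ℤ), 2 ≤ n → κ ≠ 0 → -(n : ℤ) < 2 * κ →
    2 * κ ≤ n → ∃ a : ℕ, a < n ∧
      ‖((((a : ℝ) / (n : ℝ)) : ℝ) : TT)‖ ≤ 1 / (4 * |(κ : ℝ)|) + 1 / (n : ℝ) ∧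
      1 / 4 ≤ ‖κ • ((((a : ℝ) / (n : ℝ)) : ℝ) : TT)‖) ∧
  (∀ (n : ℕ) (y : TT), 1 ≤ n → n • y = 0 → ∃ a : ℕ, a < n ∧ y = ((((a : ℝ) / (n : ℝ)) : ℝ) : TT))

/-- Choice of signs. -/
def S_SGN : Prop := ∀ (s : Finset ℕ) (z : ℕ → TT) (δ : ℝ), 0 < δ → (∀ i ∈ s, δ / 2 ≤ ‖z i‖) →
  2 ≤ δ * s.card →
  (∀ r : TT, ∃ σ : ℕ → ℤ, (∀ i, σ i = 0 ∨ σ i = 1 ∨ σ i = -1) ∧
    1 / 8 ≤ ‖r + ∑ i ∈ s, σ i • z i‖) ∧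
  ∃ σ : ℕ → ℤ, (∀ i, σ i = 0 ∨ σ i = 1 ∨ σ i = -1) ∧ 1 / 4 ≤ ‖∑ i ∈ s, σ i • z i‖

/-- The letter coding the combination `∑ q ∈ F, c q • x q`, first participant `q1`,
precision `n`. -/
def mkL (F : Finset (ℕ → ℕ)) (c : (ℕ → ℕ) → ℤ) (q1 : ℕ → ℕ) (n : ℕ) : Letter :=
  ((c q1).natAbs, pre q1 n :: ((F.erase q1).toList.map (fun q => pre q n)))

/-- Properties of these letters. -/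
def S_MKL : Prop := ∀ (F : Finset (ℕ → ℕ)) (c : (ℕ → ℕ) → ℤ) (q1 : ℕ → ℕ),
  (∀ q ∈ F, q ∈ QQ ∧ c q ≠ 0) → q1 ∈ F → ∃ n0 : ℕ, ∀ n, n0 ≤ n →
    GoodL (mkL F c q1 n) ∧ nL (mkL F c q1 n) = n ∧ sL (mkL F c q1 n) = pre q1 n ∧
    ∀ t, IsNode t → lt t = mkL F c q1 n → ‖(∑ q ∈ F, c q • x q) t‖ = 1 / 2

/-- Killing, case of unbounded coefficients. -/
def S_KILL1 : Prop := ∀ (F : ℕ → Finset (ℕ → ℕ)) (c : ℕ → (ℕ → ℕ) → ℤ),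
  (∀ j, ∀ q ∈ F j, q ∈ QQ ∧ c j q ≠ 0) → (∀ C : ℕ, ∃ j, ∃ q ∈ F j, C < (c j q).natAbs) →
  ∃ A : Set ℕ, A.Infinite ∧ Chain A ∧
    ∀ m : ℕ, ∃ j, m ≤ j ∧ ∃ t ∈ A, ‖(∑ q ∈ F j, c j q • x q) t‖ = 1 / 2

/-- Killing, case of infinitely many participants. -/
def S_KILL2 : Prop := ∀ (F : ℕ → Finset (ℕ → ℕ)) (c : ℕ → (ℕ → ℕ) → ℤ),
  (∀ j, ∀ q ∈ F j, q ∈ QQ ∧ c j q ≠ 0) → (⋃ j, ((F j : Finset (ℕ → ℕ)) : Set (ℕ → ℕ))).Infinite →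
  ∃ A : Set ℕ, A.Infinite ∧ Chain A ∧
    ∀ m : ℕ, ∃ j, m ≤ j ∧ ∃ t ∈ A, ‖(∑ q ∈ F j, c j q • x q) t‖ = 1 / 2

/-- Homomorphisms of `H` depending on finitely many coordinates. -/
def S_FINX : Prop := ∀ (A0 : Finset ℕ) (χ : ↥H →+ TT),
  (∀ h : ↥H, (∀ t ∈ A0, (h : ℕ → TT) t = 0) → χ h = 0) →
  ∃ k : ℕ →₀ ℤ, (∀ t ∈ k.support, t ∈ A0) ∧ ∀ h : ↥H, χ h = pr k (h : ℕ → TT)

/-- First part of `S_BIDU`: the values on unit vectors. -/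
def S_BA : Prop := ∀ A : Set ℕ, FinCh A → ∀ (χ : ↥H →+ TT) (ε : ℝ), 0 < ε →
  (∀ h : ↥H, (∀ t ∈ A, ‖(h : ℕ → TT) t‖ < ε) → ‖χ h‖ < 1 / 4) →
  ∃ (t0 : ℕ) (k0 : ℕ →₀ ℤ), (∀ t ∈ k0.support, t ∈ A ∧ t0 ≤ t) ∧
    (∀ t ∈ A, t0 ≤ t → ∀ a : ℕ, ∃ h ∈ H, h t = ((((a : ℝ) / (N t : ℝ)) : ℝ) : TT) ∧
      ∀ u ∈ A, u ≠ t → h u = 0) ∧
    ∀ t ∈ A, t0 ≤ t → ∀ h : ↥H, (∀ u ∈ A, u ≠ t → (h : ℕ → TT) u = 0) →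
      χ h = pr k0 (h : ℕ → TT)

/-- Second part: elements vanishing on the coordinates below `t0`. -/
def S_BB : Prop := ∀ A : Set ℕ, FinCh A → ∀ (χ : ↥H →+ TT) (ε : ℝ), 0 < ε →
  (∀ h : ↥H, (∀ t ∈ A, ‖(h : ℕ → TT) t‖ < ε) → ‖χ h‖ < 1 / 4) →
  ∀ (t0 : ℕ) (k0 : ℕ →₀ ℤ), (∀ t ∈ k0.support, t ∈ A ∧ t0 ≤ t) →
    (∀ t ∈ A, t0 ≤ t → ∀ a : ℕ, ∃ h ∈ H, h t = ((((a : ℝ) / (N t : ℝ)) : ℝ) : TT) ∧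
      ∀ u ∈ A, u ≠ t → h u = 0) →
    (∀ t ∈ A, t0 ≤ t → ∀ h : ↥H, (∀ u ∈ A, u ≠ t → (h : ℕ → TT) u = 0) →
      χ h = pr k0 (h : ℕ → TT)) →
    ∀ h : ↥H, (∀ t ∈ A, t < t0 → (h : ℕ → TT) t = 0) → χ h = pr k0 (h : ℕ → TT)

/-- Finite groups. -/
abbrev Gm (n : ℕ) := (t : Fin n) → ZMod (N (t : ℕ))

/-- Pairing of the finite group with functions. -/
def pz {n : ℕ} (z : Gm n) (h : ℕ → TT) : TT := ∑ t : Fin n, (z t).val • h t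

instance instNZ (t : ℕ) : NeZero (N t) := ⟨by unfold N; positivity⟩

/-- Functions with values in the finite groups. -/
def Vh (h : ℕ → TT) : Prop := ∀ t, N t • h t = 0

def S_PZ : Prop :=
  (∀ (n : ℕ) (h : ℕ → TT), Vh h → ∀ z z' : Gm n, pz (z + z') h = pz z h + pz z' h) ∧
  (∀ (n : ℕ) (h h' : ℕ → TT) (z : Gm n), pz z (h + h') = pz z h + pz z h') ∧
  (∀ (n : ℕ) (z : Gm n), ∃ k : ℕ →₀ ℤ, ∀ h : ℕ → TT, pr k h = pz z h)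

/-- Orthogonality. -/
def S_D1 : Prop := ∀ (n : ℕ) (g : ℕ → TT), Vh g → (∃ t, t < n ∧ g t ≠ 0) →
  ∑ z : Gm n, ((AddCircle.toCircle (pz z g) : Circle) : ℂ) = 0

/-- Density of Bohr sets. -/
def S_D2 : Prop := ∀ (n : ℕ) (F : Finset (ℕ → TT)), (∀ h ∈ F, Vh h) → ∀ m : ℕ, 1 ≤ m →
  (Fintype.card (Gm n) : ℝ) ≤ (m : ℝ) ^ F.card *
    ((Finset.univ.filter (fun z : Gm n => ∀ h ∈ F, ‖pz z h‖ ≤ 1 / (m : ℝ))).card : ℝ)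

/-- The weight `(1 + cos 2πy)/2`. -/
def ww (y : TT) : ℝ := (1 + ((AddCircle.toCircle y : Circle) : ℂ).re) / 2

/-- Facts on the weight. -/
def S_WW : Prop := (∀ y, 0 ≤ ww y ∧ ww y ≤ 1) ∧
  (∀ δ : ℝ, 0 < δ → ∃ ρ : ℝ, 0 < ρ ∧ ρ < 1 ∧ ∀ y : TT, δ ≤ ‖y‖ → ww y ≤ ρ) ∧
  (∀ ρ : ℝ, ρ < 1 → ∃ m : ℕ, 1 ≤ m ∧ ∀ y : TT, ‖y‖ ≤ 1 / (m : ℝ) → ρ ≤ ww y) ∧
  (∀ y : TT, ‖y‖ < 1 / 6 → 1 / 2 ≤ ((AddCircle.toCircle y : Circle) : ℂ).re)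

/-- Expansion of the product of the weights into characters from `H`. -/
def S_D4 : Prop := ∀ (F : Finset (ℕ → TT)) (m : ℕ), (∀ h ∈ F, h ∈ H) →
  ∃ (s : Finset (ℕ → TT)) (c : (ℕ → TT) → ℂ), (∀ g ∈ s, g ∈ H) ∧
    ∀ (n : ℕ) (z : Gm n), (((∏ h ∈ F, ww (pz z h)) ^ m : ℝ) : ℂ) =
      ∑ g ∈ s, c g * ((AddCircle.toCircle (pz z g) : Circle) : ℂ)

/-- If compact sets are finite, the compact-open topology of the bidual is pointwise. -/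
def S_PW : Prop := S_FINC → ∀ (Y : Type) [TopologicalSpace Y]
  (f : Y → PontryaginDual (PontryaginDual (Multiplicative ↥GS))),
  (∀ χ : PontryaginDual (Multiplicative ↥GS), Continuous (fun y => f y χ)) → Continuous f

end

end Pool.Agent.W601.RP
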