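import Pool.Agent.W513.RP.Node
import Pool.Agent.W369.RP.LOC
import Pool.Agent.W576.RP.NU0
import Pool.Agent.W412.RP.AV
import Pool.Agent.W366.RP.Rep
import Pool.Agent.W287.RP.Ext
import Pool.Agent.W82.RP.BR
import Pool.Agent.W274.RP.Mkl
import Pool.Agent.W140.RP.Kill1
import Pool.Agent.W765.RP.Kill2
import Pool.Agent.W591.RP.Kill
import Pool.Agent.W40.RP.GH
import Pool.Agent.W15.RP.Unit
import Pool.Agent.W856.RP.Sep
import Pool.Agent.W135.RP.Red
import Pool.Agent.W935.RP.BA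
import Pool.Agent.W462.RP.BB
import Pool.Agent.W230.RP.Bidu
import Pool.Agent.W616.RP.Pz
import Pool.Agent.W822.RP.D1
import Pool.Agent.W701.RP.D2
import Pool.Agent.W657.RP.WW
import Pool.Agent.W750.RP.D4
import Pool.Agent.W991.RP.GSe
import Pool.Agent.W977.RP.Seq
import Pool.Agent.W35.RP.KA
import Pool.Agent.W881.RP.CH
import Pool.Agent.W699.RP.FINC
import Pool.Agent.W280.RP.Pw
import Pool.Agent.W382.RP.FIN
import Pool.Agent.W45.RP.Null
import Pool.Agent.W778.RP.XV
import Pool.Agent.W864.RP.Nuc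
import Pool.Agent.W111.RP.Dich
import Pool.Agent.W565.RP.Cir
import Pool.Agent.W347.RP.SGN
import Pool.Agent.W279.RP.Supp
import Pool.Agent.W918.RP.Coef
import Pool.Agent.W675.RP.Ant
import Pool.Agent.W605.RP.Finx
import Pool.Agent.W563.RP.Dual
import Pool.Agent.W63.RP.Cpt
import Pool.Agent.W85.RP.Pre
import Pool.Agent.W551.RP.Dd

open Pool.Agent.W601.RP

namespace Pool.Agent.W601.RP

/-- A countably infinite precompact reflexive group exists. -/
theorem all : S_FIN := by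
  have hnode : S_NODE := Pool.Agent.W513.RP.node
  have hxv : S_XV := Pool.Agent.W778.RP.xv hnode
  have hloc : S_LOC := Pool.Agent.W369.RP.loc hnode
  have hnuc : S_NUC := Pool.Agent.W864.RP.nuc hnode
  have hnu0 : S_NU0 := Pool.Agent.W576.RP.nu0 hnode
  have hav : S_AV := Pool.Agent.W412.RP.av hnode
  have hnull : S_NULL := Pool.Agent.W45.RP.null hnode hxv
  have hrep : S_REP := Pool.Agent.W366.RP.rep
  have hext : S_EXT := Pool.Agent.W287.RP.ext
  have hbr : S_BR := Pool.Agent.W82.RP.br hnode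
  have hmkl : S_MKL := Pool.Agent.W274.RP.mkl
  have hkill1 : S_KILL1 := Pool.Agent.W140.RP.Kill1.kill1 hbr hmkl
  have hkill2 : S_KILL2 := Pool.Agent.W765.RP.kill2 hbr hmkl hext
  have hkill : S_KILL := Pool.Agent.W591.RP.kill hrep hkill1 hkill2
  have hdich : S_DICH := Pool.Agent.W111.RP.dich hnode
  have hgh : S_GH := Pool.Agent.W40.RP.gh hav hloc
  have hcir : S_CIR := Pool.Agent.W565.RP.Cir.cir
  have hsgn : S_SGN := Pool.Agent.W347.RP.sgn
  have hsupp : S_SUPP := Pool.Agent.W279.RP.supp hgh hnu0 hcir hsgn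
  have hcoef : S_COEF := Pool.Agent.W918.RP.coef hgh hnu0 hcir
  have hant : S_ANT := Pool.Agent.W675.RP.ant hgh hnu0 hcir
  have hunit : S_UNIT := Pool.Agent.W15.RP.unit hav hnuc hloc
  have hsep : S_SEP := Pool.Agent.W856.RP.sep hav hnu0 hloc
  have hred : S_RED := Pool.Agent.W135.RP.red hnull
  have hfinx : S_FINX := Pool.Agent.W605.RP.finx hnull
  have hba : S_BA := Pool.Agent.W935.RP.BA.ba hunit hnull hcir hsgn
  have hbb : S_BB := Pool.Agent.W462.RP.bb hnull hcir hred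
  have hbidu : S_BIDU := Pool.Agent.W230.RP.bidu hba hbb hfinx hred
  have hpz : S_PZ := Pool.Agent.W616.RP.pzz
  have hd1 : S_D1 := Pool.Agent.W822.RP.d1 hpz
  have hd2 : S_D2 := Pool.Agent.W701.RP.d2 hpz
  have hww : S_WW := Pool.Agent.W657.RP.wwp
  have hd4 : S_D4 := Pool.Agent.W750.RP.d4 hpz
  have hdual : S_DUAL := Pool.Agent.W563.RP.dual hnull hred hpz hd1 hd2 hww hd4
  have hgs : S_GS := gs hred hsep hnull
  have hseq : S_SEQ := Pool.Agent.W977.RP.seq
  have hcpt : S_CPT := Pool.Agent.W63.RP.cpt hsupp hcoef hant hdich hgs hseq hred hnull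
  have hka : S_KA := Pool.Agent.W35.RP.ka hnull hgs
  have hprec : S_PRE := Pool.Agent.W85.RP.Pre.prec
  have hch : S_CH := Pool.Agent.W881.RP.CH.ch hdual hgs hred
  have hfinc : S_FINC := Pool.Agent.W699.RP.finc hch hkill hka hseq hgs
  have hdd : S_DD := Pool.Agent.W551.RP.dd hch hcpt hbidu hgs hred
  have hpw : S_PW := Pool.Agent.W280.RP.pw
  exact Pool.Agent.W382.RP.fin hgs hprec hch hfinc hpw hdd

end Pool.Agent.W601.RP
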