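import Mathlib

set_option autoImplicit false
open scoped Classical
open Filter Topology

namespace Pool.Agent.W601.RP

noncomputable section

/-! # A countably infinite precompact reflexive group (frozen statement S01943)

The group is the group of characters `h ↦ ∑ k t • h t` (`k : ℕ →₀ ℤ`) of a subgroup `H` of
`ℕ → ℝ/ℤ`; the generators `x q` of `H` react to codes of finite approximations of generators. -/

/-- The circle `ℝ/ℤ`, with its norm (distance to `0`, at most `1/2`). -/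
abbrev TT := UnitAddCircle

/-- The modulus of the coordinate `t`. -/
def N (t : ℕ) : ℕ := 2 * (t + 1).factorial

/-- Bound for the values of the parameters `q` at `t`. -/
def M (t : ℕ) : ℕ := 2 * N t

/-- A letter: a coefficient `a.1` and the list `a.2` of the prefixes of the participants;
the head of the list is the first participant. -/
abbrev Letter := ℕ × List (List ℕ)

/-- The prefix of the first participant. -/
def sL (a : Letter) : List ℕ := a.2.headD []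

/-- The precision of a letter: the length of the prefixes. -/
def nL (a : Letter) : ℕ := (sL a).length

/-- Admissible letters. -/
def GoodL (a : Letter) : Prop :=
  1 ≤ a.1 ∧ a.1 ≤ nL a ∧ a.2 ≠ [] ∧ a.2.length ≤ nL a ∧ a.2.Nodup ∧
    (∀ s ∈ a.2, s.length = nL a) ∧ ∀ s ∈ a.2, ∀ i, i < nL a → s.getD i 0 < M i

/-- The letter `b` may follow the letter `a` (not necessarily immediately). -/
def Foll (a b : Letter) : Prop :=
  nL a < nL b ∧ ((sL b).take (nL a) = sL a → a.1 < b.1)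

/-- Nodes of the tree: nonempty lists of admissible letters, any two in the relation `Foll`. -/
def Nd (l : List Letter) : Prop := l ≠ [] ∧ (∀ a ∈ l, GoodL a) ∧ l.Pairwise Foll

/-- Last letter. -/
def lst (l : List Letter) : Letter := l.getLastD (0, [])

/-- The coordinate (a natural number) of a list of letters. -/
def idx (l : List Letter) : ℕ := Nat.pair (Encodable.encode l) (nL (lst l))

/-- `t` is the coordinate of a node. -/
def IsNode (t : ℕ) : Prop := ∃ l, Nd l ∧ idx l = t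

/-- The node with coordinate `t`. -/
def nod (t : ℕ) : List Letter := if h : ∃ l, Nd l ∧ idx l = t then h.choose else []

/-- The last letter of the node with coordinate `t`. -/
def lt (t : ℕ) : Letter := lst (nod t)

/-- Tree order on coordinates (proper extension of nodes). -/
def Lt (t u : ℕ) : Prop :=
  ∃ l l', Nd l ∧ Nd l' ∧ idx l = t ∧ idx l' = u ∧ l <+: l' ∧ l ≠ l'

/-- Comparable and different. -/
def Cmp (t u : ℕ) : Prop := Lt t u ∨ Lt u t

/-- Prefix of length `n`. -/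
def pre (q : ℕ → ℕ) (n : ℕ) : List ℕ := (List.range n).map q

/-- The value `⌊q t / 2⌋ / N t` in `ℝ/ℤ`. -/
def gam (q : ℕ → ℕ) (t : ℕ) : TT := ((((q t / 2 : ℕ) : ℝ) / (N t : ℝ) : ℝ) : TT)

/-- The generator with parameter `q`: if `t` is (the coordinate of) a node one of whose
participants agrees with `q`, the value is `1/(2c)` for the first participant and `0` for the
others; in all other cases it is `gam q t`. -/
def x (q : ℕ → ℕ) (t : ℕ) : TT :=
  if IsNode t ∧ pre q (nL (lt t)) ∈ (lt t).2 then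
    (if pre q (nL (lt t)) = sL (lt t) then (((1 / (2 * ((lt t).1 : ℝ))) : ℝ) : TT) else 0)
  else gam q t

/-- Chains: pairwise comparable coordinates. -/
def Chain (A : Set ℕ) : Prop := ∀ t ∈ A, ∀ u ∈ A, t ≠ u → Cmp t u

/-- Convergence to `0` along every infinite chain. -/
def NullC (f : ℕ → TT) : Prop :=
  ∀ A : Set ℕ, Chain A → ∀ η : ℝ, 0 < η → {t | t ∈ A ∧ η ≤ ‖f t‖}.Finite

/-- The admissible parameters. -/
def QQ : Set (ℕ → ℕ) := {q | (∀ i, q i < M i) ∧ NullC (gam q)}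

/-- The group `H`. -/
def H : AddSubgroup (ℕ → TT) := AddSubgroup.closure {f | ∃ q ∈ QQ, f = x q}

/-- The pairing. -/
def pr (k : ℕ →₀ ℤ) (h : ℕ → TT) : TT := k.sum (fun t a => a • h t)

/-- Reduced coefficients: `-N t < 2 k t ≤ N t`. -/
def Red (k : ℕ →₀ ℤ) : Prop := ∀ t, -(N t : ℤ) < 2 * k t ∧ 2 * k t ≤ N t

/-- The proportion of parities coded at `t`. -/
def nu (t : ℕ) : ℝ := if IsNode t then ((lt t).2.length : ℝ) * (1 / 2 : ℝ) ^ (nL (lt t)) else 0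

/-- Finite unions of chains. -/
def FinCh (A : Set ℕ) : Prop :=
  ∃ F : Finset (Set ℕ), (∀ B ∈ F, Chain B) ∧ A ⊆ ⋃ B ∈ F, B

/-- Null sequences of (coefficients of) characters. -/
def NullS (k : ℕ → (ℕ →₀ ℤ)) : Prop :=
  ∀ h ∈ H, Tendsto (fun j => pr (k j) h) atTop (𝓝 0)

/-! ## Part I: the combinatorial construction -/

/-- Basic facts on nodes. -/
def S_NODE : Prop :=
  (∀ l l', idx l = idx l' → l = l') ∧ (∀ l, Nd l → nod (idx l) = l) ∧
  (∀ t, IsNode t → Nd (nod t) ∧ idx (nod t) = t ∧ GoodL (lt t) ∧ nL (lt t) ≤ t ∧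
    1 ≤ (lt t).1 ∧ (lt t).1 ≤ t ∧ (lt t).2.length ≤ nL (lt t) ∧ 1 ≤ nL (lt t)) ∧
  (∀ t u, Lt t u → IsNode t ∧ IsNode u ∧ t ≠ u ∧ Foll (lt t) (lt u)) ∧
  (∀ t u v, Lt t u → Lt u v → Lt t v) ∧ (∀ t, ¬ Lt t t) ∧
  (∀ t u v, Lt t v → Lt u v → t = u ∨ Lt t u ∨ Lt u t) ∧
  (∀ v, {t | Lt t v}.Finite)

/-- The generators take values in the right finite groups. -/
def S_XV : Prop := ∀ (q : ℕ → ℕ) (t : ℕ), N t • x q t = 0

/-- Locality. -/
def S_LOC : Prop := ∀ (q q' : ℕ → ℕ) (t : ℕ), (∀ i ≤ t, q i = q' i) → x q t = x q' t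

/-- The weights `nu` are summable along finite unions of chains. -/
def S_NUC : Prop := ∀ A : Set ℕ, FinCh A → Summable (A.indicator nu)

/-- The weights tend to `0` and are less than `1`. -/
def S_NU0 : Prop := (∀ δ : ℝ, 0 < δ → {t | δ ≤ nu t}.Finite) ∧ (∀ t, nu t < 1) ∧ ∀ t, 0 ≤ nu t

/-- Parities avoiding the codes in a sparse set of coordinates. -/
def S_AV : Prop := ∀ W : Set ℕ, Summable (W.indicator nu) → (∑' t, W.indicator nu t) < 1 →
  ∃ ε : ℕ → ℕ, (∀ i, ε i < 2) ∧ ∀ u ∈ W, ∀ q : ℕ → ℕ, (∀ i, q i % 2 = ε i) → x q u = gam q u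

/-- All elements of `H` tend to `0` along infinite chains; `H` has values in finite groups. -/
def S_NULL : Prop := (∀ h ∈ H, NullC h) ∧ ∀ h ∈ H, ∀ t, N t • h t = 0

/-- Representation of the elements of `H`. -/
def S_REP : Prop := ∀ h ∈ H, ∃ (F : Finset (ℕ → ℕ)) (c : (ℕ → ℕ) → ℤ),
  (∀ q ∈ F, q ∈ QQ ∧ c q ≠ 0) ∧ h = ∑ q ∈ F, c q • x q

/-- Extraction: sequences of different bounded functions have a subsequence with pairwise
incompatible prefixes. -/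
def S_EXT : Prop := ∀ p : ℕ → (ℕ → ℕ), Function.Injective p → (∀ m i, p m i < M i) →
  ∀ b : ℕ → ℕ, ∃ (m n : ℕ → ℕ), StrictMono m ∧ StrictMono n ∧ (∀ k, b (m k) ≤ n k) ∧
    ∀ k k', k < k' → pre (p (m k')) (n k) ≠ pre (p (m k)) (n k)

/-- A sequence of letters, pairwise in the relation `Foll`, gives an infinite chain. -/
def S_BR : Prop := ∀ a : ℕ → Letter, (∀ m, GoodL (a m)) → (∀ m m', m < m' → Foll (a m) (a m')) →
  ∃ t : ℕ → ℕ, Function.Injective t ∧ Chain (Set.range t) ∧ ∀ m, IsNode (t m) ∧ lt (t m) = a m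

/-- Every sequence of different elements of `H` is large on some infinite chain. -/
def S_KILL : Prop := ∀ g : ℕ → (ℕ → TT), (∀ j, g j ∈ H) → (∀ j, g j ≠ 0) →
  Function.Injective g → ∃ A : Set ℕ, A.Infinite ∧ Chain A ∧
    ∀ m : ℕ, ∃ j, m ≤ j ∧ ∃ t ∈ A, ‖g j t‖ = 1 / 2

/-- A set of coordinates without infinite antichains is a finite union of chains. -/
def S_DICH : Prop := ∀ S : Set ℕ,
  (∀ E ⊆ S, E.Infinite → ∃ t ∈ E, ∃ u ∈ E, t ≠ u ∧ Cmp t u) → FinCh S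

/-! ## Part II: the group is reflexive -/

/-- Gliding hump. -/
def S_GH : Prop := ∀ (k : ℕ → (ℕ →₀ ℤ)) (u : ℕ → ℕ), StrictMono u →
  (∀ l, ∀ t ∈ (k l).support, t < u (l + 1)) →
  Summable ((⋃ l, {t | t ∈ (k l).support ∧ u l ≤ t}).indicator nu) →
  (∑' t, (⋃ l, {t | t ∈ (k l).support ∧ u l ≤ t}).indicator nu t) < 1 →
  ∀ 𝓕 : ℕ → Set (ℕ → ℕ),
  (∀ l, ∀ f ∈ 𝓕 l, ∀ t, f t < N t ∧ (f t ≠ 0 → t ∈ (k l).support ∧ u l ≤ t)) →
  (∀ l (r : TT), ∃ f ∈ 𝓕 l,
    1 / 8 ≤ ‖r + ∑ t ∈ (k l).support.filter (fun t => u l ≤ t),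
      (k l t) • ((((f t : ℝ) / (N t : ℝ)) : ℝ) : TT)‖) →
  (∀ g : ℕ → ℕ, (∀ t < u 0, g t = 0) →
    (∀ l, ∃ f ∈ 𝓕 l, ∀ t, u l ≤ t → t < u (l + 1) → g t = f t) →
    NullC (fun t => ((((g t : ℝ) / (N t : ℝ)) : ℝ) : TT))) →
  ∃ q ∈ QQ, ∀ l, 1 / 8 ≤ ‖pr (k l) (x q)‖

/-- Null sequences have supports of bounded size. -/
def S_SUPP : Prop := ∀ k : ℕ → (ℕ →₀ ℤ), (∀ j, Red (k j)) → NullS k →
  ∃ L : ℕ, ∀ j, (k j).support.card ≤ L

/-- Null sequences have bounded coefficients. -/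
def S_COEF : Prop := ∀ k : ℕ → (ℕ →₀ ℤ), (∀ j, Red (k j)) → NullS k →
  (∃ L : ℕ, ∀ j, (k j).support.card ≤ L) → ∃ C : ℤ, ∀ j t, |k j t| ≤ C

/-- The supports of a null sequence do not meet an infinite antichain. -/
def S_ANT : Prop := ∀ k : ℕ → (ℕ →₀ ℤ), (∀ j, Red (k j)) → NullS k →
  (∃ L : ℕ, ∀ j, (k j).support.card ≤ L) →
  ∀ e : ℕ → ℕ, Function.Injective e → (∀ i j, i ≠ j → ¬ Cmp (e i) (e j)) →
  (∀ i, e i ∈ (k i).support) → False

/-- Unit vectors on finite unions of chains. -/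
def S_UNIT : Prop := ∀ A : Set ℕ, FinCh A → ∃ t0 : ℕ, ∀ t ∈ A, t0 ≤ t → ∀ a : ℕ,
  ∃ h ∈ H, h t = ((((a : ℝ) / (N t : ℝ)) : ℝ) : TT) ∧ ∀ u ∈ A, u ≠ t → h u = 0

/-- `H` separates the points of the dual group. -/
def S_SEP : Prop := ∀ k : ℕ →₀ ℤ, Red k → k ≠ 0 → ∃ h ∈ H, pr k h ≠ 0

/-- Reduction of coefficients. -/
def S_RED : Prop := (∀ k : ℕ →₀ ℤ, ∃ k' : ℕ →₀ ℤ, Red k' ∧ ∀ h ∈ H, pr k h = pr k' h) ∧
  (∀ (k k' : ℕ →₀ ℤ) (h : ℕ → TT), pr (k + k') h = pr k h + pr k' h) ∧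
  (∀ (k : ℕ →₀ ℤ) (h h' : ℕ → TT), pr k (h + h') = pr k h + pr k h') ∧
  (∀ (k : ℕ →₀ ℤ) (h : ℕ → TT) (η : ℝ), (∀ t ∈ k.support, ‖h t‖ ≤ η) →
    ‖pr k h‖ ≤ (∑ t ∈ k.support, |(k t : ℝ)|) * η)

/-- Continuous characters of `H` (uniform convergence on a finite union of chains). -/
def S_BIDU : Prop := ∀ A : Set ℕ, FinCh A → ∀ (χ : ↥H →+ TT) (ε : ℝ), 0 < ε →
  (∀ h : ↥H, (∀ t ∈ A, ‖(h : ℕ → TT) t‖ < ε) → ‖χ h‖ < 1 / 4) →
  ∃ k : ℕ →₀ ℤ, ∀ h : ↥H, χ h = pr k (h : ℕ → TT)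

/-- Characters continuous for the topology given by `H`. -/
def S_DUAL : Prop := ∀ (χ : (ℕ →₀ ℤ) →+ TT) (F : Finset (ℕ → TT)) (δ : ℝ), 0 < δ →
  (∀ h ∈ F, h ∈ H) → (∀ k : ℕ →₀ ℤ, (∀ h ∈ F, ‖pr k h‖ < δ) → ‖χ k‖ < 1 / 6) →
  ∃ h ∈ H, ∀ k : ℕ →₀ ℤ, χ k = pr k h

/-- The homomorphism `k ↦ (h ↦ pr k h)`. -/
def phi (k : ℕ →₀ ℤ) : ↥H → TT := fun h => pr k (h : ℕ → TT)

/-- The group: the range of `phi`, with the topology of pointwise convergence on `H`. -/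
def GS : AddSubgroup (↥H → TT) := AddSubgroup.closure (Set.range phi)

/-- Every element of `GS` is some `phi k` (with `k` reduced and unique). -/
def S_GS : Prop := (∀ g : ↥GS, ∃ k : ℕ →₀ ℤ, Red k ∧ (g : ↥H → TT) = phi k) ∧
  (∀ k, phi k ∈ GS) ∧ (∀ k k' : ℕ →₀ ℤ, Red k → Red k' → phi k = phi k' → k = k') ∧
  Countable ↥GS ∧ Infinite ↥GS

/-- Sequential compactness from a continuous injection into a metrizable space. -/
def S_SEQ : Prop := ∀ (X Y : Type) [TopologicalSpace X] [TopologicalSpace Y]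
  [TopologicalSpace.MetrizableSpace Y] (f : X → Y), Continuous f → Function.Injective f →
  ∀ K : Set X, IsCompact K → ∀ z : ℕ → X, (∀ n, z n ∈ K) →
    ∃ a ∈ K, ∃ φ : ℕ → ℕ, StrictMono φ ∧ Tendsto (fun n => z (φ n)) atTop (𝓝 a)

/-- Compact subsets of the group. -/
def S_CPT : Prop := ∀ K : Set ↥GS, IsCompact K → ∃ (A : Set ℕ) (C : ℝ), FinCh A ∧ 0 < C ∧
  ∀ g ∈ K, ∃ k : ℕ →₀ ℤ, (g : ↥H → TT) = phi k ∧ (∀ t ∈ k.support, t ∈ A) ∧
    (∑ t ∈ k.support, |(k t : ℝ)|) ≤ C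

/-- The compact sets `{phi (single t 1) : t ∈ A} ∪ {0}`, `A` a chain. -/
def S_KA : Prop := ∀ A : Set ℕ, Chain A →
  IsCompact ({g : ↥GS | (g : ↥H → TT) = 0 ∨ ∃ t ∈ A, (g : ↥H → TT) = phi (Finsupp.single t 1)})

/-- Precompactness. -/
def S_PRE : Prop := ∀ U ∈ 𝓝 (0 : ↥GS), ∃ F : Finset ↥GS, ∀ g : ↥GS, ∃ f ∈ F, ∃ u ∈ U, g = f + u

/-- The continuous characters of the group are the evaluations at the elements of `H`. -/
def S_CH : Prop :=
  (∀ χ : PontryaginDual (Multiplicative ↥GS), ∃ h : ↥H, ∀ g : ↥GS,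
    χ (Multiplicative.ofAdd g) = AddCircle.toCircle ((g : ↥H → TT) h)) ∧
  (∀ h : ↥H, ∃ χ : PontryaginDual (Multiplicative ↥GS), ∀ g : ↥GS,
    χ (Multiplicative.ofAdd g) = AddCircle.toCircle ((g : ↥H → TT) h))

/-- Compact subsets of the dual are finite. -/
def S_FINC : Prop := ∀ C : Set (PontryaginDual (Multiplicative ↥GS)), IsCompact C → C.Finite

/-- The continuous characters of the dual are the evaluations at the elements of the group. -/
def S_DD : Prop := ∀ Ψ : PontryaginDual (PontryaginDual (Multiplicative ↥GS)),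
  ∃ g : Multiplicative ↥GS, ∀ χ : PontryaginDual (Multiplicative ↥GS), Ψ χ = χ g

/-- The frozen statement. -/
def S_FIN : Prop :=
    ∃ (G : Type) (_ : CommGroup G) (_ : TopologicalSpace G),
      IsTopologicalGroup G ∧ Countable G ∧ Infinite G ∧
      (∀ U ∈ nhds (1 : G), ∃ F : Finset G, ∀ g : G, ∃ f ∈ F, ∃ u ∈ U, g = f * u) ∧
      ∃ e : G ≃ₜ PontryaginDual (PontryaginDual G),
        ∀ (g : G) (χ : PontryaginDual G), e g χ = χ g

end

end Pool.Agent.W601.RP
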